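import Pool.Agent.TH223.AP.A5

/-!
# The weak Mertens hypothesis is equivalent to almost periodicity, and gives a limiting distribution

Let `M(u) = ∑_{n ≤ u} μ(n)` and `f(v) = M(e^v) e^{-v/2}`.  Unconditionally the following are equivalent:

* the weak Mertens hypothesis `∫_1^x (M(u)/u)² du ≤ C log x`;
* `f` is almost periodic in the sense of Besicovitch (`B²`): for every `ε > 0` there is a trigonometric
  polynomial `P` with `(1/V) ∫_0^V |f - P|² ≤ ε` for all large `V`;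
* `f` has a limiting distribution `μ` in the strong sense that `(1/V) ∫_0^V φ(f(v)) dv → ∫ φ dμ` for every
  continuous `φ` with `φ(t) = O(1 + t²)`.

If they hold, the Fourier series of `f` is `∑_ρ e^{iγv} / (ρ ζ'(ρ))`, which converges to `f` in mean square (the
mean square distance of `f` to the sum over a finite set `Z` of zeros is the sum of `1 / |ρ ζ'(ρ)|²` over the
zeros outside `Z`), the limiting distribution has mean `0` and variance `∑_ρ 1 / |ρ ζ'(ρ)|²`, and for some `η > 0`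
each of the sets `{M(x) > η √x}` and `{M(x) < -η √x}` has positive lower logarithmic density.
-/

set_option autoImplicit false

open Filter Topology MeasureTheory

namespace Pool.Agent.Results.MP_323ce2_nt.AlmostPeriodicity

/-- the Mertens function -/
noncomputable def M (u : ℝ) : ℝ := ∑ n ∈ Finset.Icc 1 ⌊u⌋₊, ((ArithmeticFunction.moebius n : ℤ) : ℝ)

/-- the weak Mertens hypothesis -/
def WeakMertens : Prop := ∃ C : ℝ, ∀ x : ℝ, 2 ≤ x → ∫ u in (1:ℝ)..x, (M u / u) ^ 2 ≤ C * Real.log x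

/-- `f(v) = M(e^v) e^{-v/2}` -/
noncomputable def f (v : ℝ) : ℝ := M (Real.exp v) * Real.exp (-(v / 2))

/-- the mean of `g` over `[0, V]` -/
noncomputable def mean (g : ℝ → ℝ) (V : ℝ) : ℝ := (∫ v in (0:ℝ)..V, g v) / V

/-- `f` is almost periodic in the sense of Besicovitch: it can be approximated in mean square by
trigonometric polynomials `∑_{l ∈ K} a_l e^{ilv}` -/
def AlmostPeriodic : Prop := ∀ ε : ℝ, 0 < ε → ∃ (K : Finset ℝ) (a : ℝ → ℂ), ∀ᶠ V : ℝ in atTop,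
  mean (fun v => ‖((f v : ℝ) : ℂ) - ∑ l ∈ K, a l * Complex.exp (Complex.I * l * v)‖ ^ 2) V ≤ ε

/-- `μ` is the limiting distribution of `f`, with convergence for all continuous test functions of at most
quadratic growth -/
def IsLimitLaw (μ : ProbabilityMeasure ℝ) : Prop := ∀ φ : ℝ → ℝ, Continuous φ →
  (∃ C : ℝ, ∀ t, |φ t| ≤ C * (1 + t ^ 2)) → Integrable φ (μ : Measure ℝ) ∧
    Tendsto (mean fun v => φ (f v)) atTop (𝓝 (∫ t, φ t ∂(μ : Measure ℝ)))

/-- the nontrivial zeros of the Riemann zeta function -/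
def NT : Set ℂ := {s : ℂ | riemannZeta s = 0 ∧ 0 < s.re ∧ s.re < 1}

theorem result :
    (WeakMertens ↔ AlmostPeriodic) ∧ (WeakMertens ↔ ∃ μ : ProbabilityMeasure ℝ, IsLimitLaw μ) ∧
    (WeakMertens →
      (∀ Z : Finset ℂ, (∀ ρ ∈ Z, ρ ∈ NT) →
        Tendsto (mean fun v => ‖((f v : ℝ) : ℂ) -
            ∑ ρ ∈ Z, Complex.exp ((ρ - 1 / 2) * v) / (ρ * deriv riemannZeta ρ)‖ ^ 2) atTop
          (𝓝 ((∑' ρ : NT, 1 / ‖(ρ : ℂ) * deriv riemannZeta ρ‖ ^ 2) -
            ∑ ρ ∈ Z, 1 / ‖ρ * deriv riemannZeta ρ‖ ^ 2))) ∧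
      (∃ μ : ProbabilityMeasure ℝ, IsLimitLaw μ ∧ ∫ t, t ∂(μ : Measure ℝ) = 0 ∧
        ∫ t, t ^ 2 ∂(μ : Measure ℝ) = ∑' ρ : NT, 1 / ‖(ρ : ℂ) * deriv riemannZeta ρ‖ ^ 2) ∧
      ∃ η c : ℝ, 0 < η ∧ 0 < c ∧ ∀ᶠ V : ℝ in atTop,
        c ≤ mean (Set.indicator {v | η < f v} 1) V ∧ c ≤ mean (Set.indicator {v | f v < -η} 1) V) :=
  TH223.AP.main

end Pool.Agent.Results.MP_323ce2_nt.AlmostPeriodicity
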