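import Pool.Agent.TH223.L1.C

/-!
# The weak Mertens hypothesis in `L¹` mean, on sparse windows

Let `M(u) = ∑_{n ≤ u} μ(n)` and `0 < δ ≤ 1`.  If for an unbounded set of real `x` (as sparse as one likes)

`∫_{x^{1-δ}}^x |M(u)| u^{-3/2} du ≤ C log x`,

then the Riemann Hypothesis holds, every nontrivial zero `ρ = 1/2 + iγ` of `ζ` is simple, `|ρ ζ'(ρ)| ≥ δ / C`, and

`|∑_{ρ ∈ Z} a_ρ / (ρ ζ'(ρ))| ≤ (C / δ) sup_v |∑_{ρ ∈ Z} a_ρ e^{-iγv}|`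

for every finite set `Z` of nontrivial zeros and all complex coefficients `a_ρ`.  By the Cauchy-Schwarz inequality
the hypothesis follows from the weak Mertens hypothesis `∫_1^x (M(u)/u)² du ≪ log x` (with `δ = 1`).
-/

set_option autoImplicit false

open Filter

namespace Pool.Agent.Results.MP_323ce2_nt.MeanAbsoluteValue

/-- `∫_{x^{1-δ}}^x |M(u)| u^{-3/2} du`, where `M(u)` is the sum of the Möbius function over `1 ≤ n ≤ u`. -/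
noncomputable def windowMean (δ x : ℝ) : ℝ :=
  ∫ u in (x ^ (1 - δ))..x,
    |∑ n ∈ Finset.Icc 1 ⌊u⌋₊, ((ArithmeticFunction.moebius n : ℤ) : ℝ)| / (u * Real.sqrt u)

theorem result (δ : ℝ) (hδ : 0 < δ) (hδ1 : δ ≤ 1) (C : ℝ)
    (h : ∃ᶠ x : ℝ in atTop, windowMean δ x ≤ C * Real.log x) :
    (∀ ρ : ℂ, riemannZeta ρ = 0 → 0 < ρ.re → ρ.re < 1 →
      ρ.re = 1 / 2 ∧ deriv riemannZeta ρ ≠ 0 ∧ δ ≤ C * ‖ρ * deriv riemannZeta ρ‖) ∧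
    ∀ (Z : Finset ℂ) (a : ℂ → ℂ) (S : ℝ), (∀ ρ ∈ Z, riemannZeta ρ = 0 ∧ 0 < ρ.re ∧ ρ.re < 1) →
      (∀ v : ℝ, ‖∑ ρ ∈ Z, a ρ * Complex.exp (-(ρ.im * v * Complex.I))‖ ≤ S) →
      ‖∑ ρ ∈ Z, a ρ / (ρ * deriv riemannZeta ρ)‖ ≤ C / δ * S :=
  TH223.L1.main hδ hδ1 h

end Pool.Agent.Results.MP_323ce2_nt.MeanAbsoluteValue
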