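import Pool.Agent.TH299.GO.D1
import Pool.Agent.TH299.GO.E3

/-!
# The first logarithmic means of the two parts of `M(u)/√u`

Let `M(u) = ∑_{n ≤ u} μ(n)`. The weak Mertens hypothesis `∫_1^x (M(u)/u)² du ≪ log x` implies, by
Cauchy's inequality, the bound `∫_1^x |M(u)| u^(-3/2) du ≪ log x` for the first mean, and so the same
bound for the positive part and for the negative part of `M`. We prove:

(1) for `0 ≤ κ ≤ 1` the three bounds `O((log x)^(1+κ))`, for `|M|`, for the positive part and for the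
negative part of `M`, are equivalent: one sign decides;

(2) `O((log x)^(1+κ))` with some `κ < 1`, for one of the two parts, implies the Riemann Hypothesis and
the simplicity of all nontrivial zeros;

(3) if the mean of one of the two parts is at most `K log x` for large `x`, then for all finite sets
`Θ` of real numbers and all complex weights `a_θ` such that the trigonometric polynomial
`Re ∑ a_θ e^(-iθu)` is bounded by `1`, we have `|Re ∑ a_θ c_θ| ≤ 2K`, where `c_θ = 1 / (ρ ζ'(ρ))` if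
`ρ = 1/2 + iθ` is a zero of `ζ`, and `c_θ = 0` otherwise. In particular `1 / |ρ ζ'(ρ)| ≤ 2K` for all
nontrivial zeros `ρ`, and, by Riesz products, the sum of `1 / |ρ ζ'(ρ)|²` over every dissociate set of
ordinates is at most `4eK²`. (If the ordinates `γ > 0` are linearly independent over the rationals, all
finite sets of them are dissociate, and the whole sum is at most `4eK²`, as under the weak Mertens
hypothesis.)

So each of the following disproves the weak Mertens hypothesis: `∫_1^x max(M(u), 0) u^(-3/2) du` is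
not `O(log x)`, or the same for `-M`; and the two are equivalent. Without any hypothesis, (2) and (3)
give lower bounds for the upper limit of the mean of each of the two parts, divided by `log x`.

Idea of the proof. By Landau's theorem on Laplace transforms of nonnegative functions, and since
`1/(s ζ(s))` is regular at the real `s ≥ 1/2`, the Laplace transforms of the two parts converge for
the same `s > 1/2` and differ by a bounded function. So `|1/ζ(1/2 + η + it)|` is at most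
`C (1 + |t|) η^(-1-κ)`. For (3) we integrate `s M` against `1 ± Re ∑ a_θ e^(-iθu)`, which lies
between `0` and `2`, and let `η → 0`; for dissociate sets `Re ∑ a_θ e^(-iθu)` is taken as the
imaginary part of the Riesz product `∏ (1 + i b_j cos(γ_j u + φ_j))`, whose modulus is at most
`exp(∑ b_j² / 2)`.
-/

open Filter MeasureTheory

namespace Pool.Agent.Results.MP_323ce2_nt.OneSignMeans

/-- the Mertens function `M(x) = ∑_{n ≤ x} μ(n)` -/
noncomputable def M (x : ℝ) : ℝ := ∑ n ∈ Finset.Icc 1 ⌊x⌋₊, ((ArithmeticFunction.moebius n : ℤ) : ℝ)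

/-- the weak Mertens hypothesis -/
def WeakMertens : Prop :=
  ∃ C : ℝ, ∀ x : ℝ, 2 ≤ x → ∫ u in (1:ℝ)..x, (M u / u) ^ 2 ≤ C * Real.log x

/-- `∫_1^x |M(u)| u^(-3/2) du = O((log x)^(1+κ))` -/
def TwoSided (κ : ℝ) : Prop := ∃ C : ℝ, ∀ᶠ x : ℝ in atTop,
  ∫ u in (1:ℝ)..x, |M u| / u ^ (3 / 2 : ℝ) ≤ C * Real.log x ^ (1 + κ)

/-- `∫_1^x max(s M(u), 0) u^(-3/2) du = O((log x)^(1+κ))` -/
def OneSided (s κ : ℝ) : Prop := ∃ C : ℝ, ∀ᶠ x : ℝ in atTop,
  ∫ u in (1:ℝ)..x, max (s * M u) 0 / u ^ (3 / 2 : ℝ) ≤ C * Real.log x ^ (1 + κ)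

/-- `∫_1^x max(s M(u), 0) u^(-3/2) du ≤ K log x` for large `x` -/
def MeanLe (s K : ℝ) : Prop := ∀ᶠ x : ℝ in atTop,
  ∫ u in (1:ℝ)..x, max (s * M u) 0 / u ^ (3 / 2 : ℝ) ≤ K * Real.log x

/-- `ρ` is a nontrivial zero of `ζ` -/
def IsZero (ρ : ℂ) : Prop := riemannZeta ρ = 0 ∧ 0 < ρ.re ∧ ρ.re < 1

/-- `1 / (ρ ζ'(ρ))` if `ρ = 1/2 + iθ` is a zero of `ζ`, and `0` otherwise -/
noncomputable def coeff (θ : ℝ) : ℂ :=
  if riemannZeta (1 / 2 + θ * Complex.I) = 0 then
    1 / ((1 / 2 + θ * Complex.I) * deriv riemannZeta (1 / 2 + θ * Complex.I)) else 0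

/-- the real numbers `t_1, ..., t_N` are dissociate with respect to the ordinates: no sum `∑ ε_j t_j`
with `ε_j ∈ {0, 1, -1}`, at least two of them nonzero, is the ordinate of a zero on the line -/
def Dissociate {N : ℕ} (t : Fin N → ℝ) : Prop :=
  ∀ ε : Fin N → ℤ, (∀ j, ε j = 0 ∨ ε j = 1 ∨ ε j = -1) → (∃ i j, i ≠ j ∧ ε i ≠ 0 ∧ ε j ≠ 0) →
    riemannZeta (1 / 2 + ((∑ j, (ε j : ℝ) * t j : ℝ) : ℂ) * Complex.I) ≠ 0

/-- **Main theorem.** -/
theorem result :
    -- the weak Mertens hypothesis implies the bounds for the first means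
    (WeakMertens → TwoSided 0) ∧
    -- (1) one sign decides
    (∀ s κ : ℝ, s = 1 ∨ s = -1 → 0 ≤ κ → κ ≤ 1 →
      ((OneSided s κ ↔ TwoSided κ) ∧ (OneSided s κ ↔ OneSided (-s) κ))) ∧
    -- (2) RH and the simplicity of the zeros from the bound for one sign
    (∀ s κ : ℝ, s = 1 ∨ s = -1 → 0 ≤ κ → κ < 1 → OneSided s κ →
      ∀ ρ : ℂ, IsZero ρ → ρ.re = 1 / 2 ∧ deriv riemannZeta ρ ≠ 0) ∧
    -- (3) the explicit inequalities
    (∀ s K : ℝ, s = 1 ∨ s = -1 → MeanLe s K →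
      (∀ ρ : ℂ, IsZero ρ → ρ.re = 1 / 2 ∧ deriv riemannZeta ρ ≠ 0 ∧
        1 ≤ 2 * K * ‖ρ * deriv riemannZeta ρ‖) ∧
      (∀ (Θ : Finset ℝ) (a : ℝ → ℂ),
        (∀ u : ℝ, |(∑ θ ∈ Θ, a θ * Complex.exp (-(θ * u * Complex.I))).re| ≤ 1) →
        |(∑ θ ∈ Θ, a θ * coeff θ).re| ≤ 2 * K) ∧
      (∀ (N : ℕ) (t : Fin N → ℝ), Dissociate t →
        ∑ j, ‖coeff (t j)‖ ^ 2 ≤ 4 * Real.exp 1 * K ^ 2)) := by
  refine ⟨Pool.Agent.TH299.GO.two_of_weak, fun s κ hs hκ hκ1 => ⟨⟨?_, ?_⟩, ⟨?_, ?_⟩⟩, ?_, ?_⟩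
  · exact fun h => Pool.Agent.TH299.GO.two_of_hyp hκ hκ1 hs h
  · exact fun h => Pool.Agent.TH299.GO.hyp_of_two hs h
  · exact fun h => Pool.Agent.TH299.GO.hyp_neg hκ hκ1 hs h
  · intro h
    have h2 := Pool.Agent.TH299.GO.hyp_neg (s := -s) hκ hκ1
      (by rcases hs with h | h <;> rw [h] <;> norm_num) h
    rw [neg_neg] at h2
    exact h2
  · exact fun s κ hs hκ hκ1 h ρ hρ => (Pool.Agent.TH299.GO.main_alpha hs hκ hκ1 h).1 ρ hρ.1 hρ.2.1 hρ.2.2
  · exact fun s K hs h => ⟨fun ρ hρ => Pool.Agent.TH299.GO.explicit_one hs h hρ.1 hρ.2.1 hρ.2.2,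
      fun Θ a ha => Pool.Agent.TH299.GO.explicit_gen hs h Θ a ha,
      fun _ t ht => Pool.Agent.TH299.GO.dissociate hs h t ht⟩

end Pool.Agent.Results.MP_323ce2_nt.OneSignMeans
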